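import Pool.Agent.Y816.PD.Chain

set_option autoImplicit false

/-!
# Almost prime chains of the second kind of exact length `k` with restricted digits

Let `a j n = 2 ^ j (n - 1) + 1`. For all `k ≥ 1` there are `c > 0` and `r₀` such that for all `r ≥ r₀`, all bases `b`,
all large `K` and ALL sets `D i ⊆ {0, …, b - 1}` (`i < K`), whose product has at least `exp (- c K) b ^ K` elements:
if the units digit may be chosen such that no `a j`, `j < k`, has a common factor with `b`, the number of the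
`n < b ^ K` whose `i`-th digit in base `b` is in `D i` for all `i < K`, and which start an almost prime chain of exact
length `k` (all `a j n`, `j < k`, have at most `r` prime factors, all larger than `n ^ (1 / r)`, and `a k n` is
composite), has the expected order `(∏ |D i|) / K ^ k`; and the number of the `n` with these digits which start a
chain of primes of length `k` is at most a constant times this. The constant `c`, so the number of the digits which
may be forbidden, does not depend on the base.  The condition on the units digit is necessary: if it fails, all such `n`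
are less than `b ^ r`.  So the number of the `n` is either of the expected order or bounded, for all digit sets.

The estimates are the library theorem `Pool.Agent.Y816.PD.exact_chain`; the dichotomy (third part) is not in the library.
-/

namespace Pool.Agent.Results.MP_39b545_nt.DigitRestrictedExactChains

open Finset Filter

/-- the term `a j n` of the chain `n, 2 n - 1, 4 n - 3, …` of the second kind -/
def a (j n : ℕ) : ℕ := 2 ^ j * (n - 1) + 1

/-- all prime factors of `a j n`, `j < k`, are larger than `n ^ (1 / r)` -/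
def Rough (k r : ℕ) : Set ℕ :=
  {n | ∀ j < k, ∀ p : ℕ, p.Prime → p ∣ a j n → (n : ℝ) ^ (1 / (r : ℝ)) < (p : ℝ)}

/-- `n` is in `Rough k r`, all `a j n`, `j < k`, have at most `r` prime factors, and `a k n` is composite. -/
def ExactAlmost (k r : ℕ) : Set ℕ :=
  {n | n ∈ Rough k r ∧ (∀ j < k, (a j n).primeFactorsList.length ≤ r) ∧ 1 < a k n ∧ ¬ (a k n).Prime}

open Classical in
/-- the number of the `n < b ^ K` in `S` whose base `b` digit at the place `i` is in `D i` for all `i < K` -/
noncomputable def count (b K : ℕ) (D : ℕ → Finset ℕ) (S : Set ℕ) : ℕ :=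
  ((range (b ^ K)).filter (fun n => (∀ i < K, n / b ^ i % b ∈ D i) ∧ n ∈ S)).card

/-- the number of all `n < b ^ K` with these digits -/
noncomputable def total (K : ℕ) (D : ℕ → Finset ℕ) : ℝ := ∏ i ∈ range K, ((D i).card : ℝ)

lemma a_congr (b j n p : ℕ) (hb : 2 ≤ b) (hn : 1 ≤ n) (hpb : p ∣ b) (hp : p ∣ a j (n % b + b)) : p ∣ a j n := by
  unfold a at hp ⊢
  have h1 : (2 ^ j * (n - 1) + 1) ≡ (2 ^ j * (n % b + b - 1) + 1) [MOD b] := by
    apply Nat.ModEq.add_right
    apply Nat.ModEq.mul_left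
    have h2 : n - 1 + 1 ≡ n % b + b - 1 + 1 [MOD b] := by
      rw [Nat.sub_add_cancel hn, Nat.sub_add_cancel (by omega)]
      have h3 : n % b + b ≡ n % b [MOD b] := by
        change (n % b + b) % b = n % b % b
        rw [Nat.add_mod_right]
      exact (Nat.mod_modEq n b).symm.trans h3.symm
    exact Nat.ModEq.add_right_cancel' 1 h2
  exact (Nat.ModEq.dvd_iff (h1.of_dvd hpb) dvd_rfl).mpr hp

/-- **The condition on the units digit is necessary.** -/
lemma bounded (k r b : ℕ) (hr : 2 ≤ r) (hb : 2 ≤ b) (E : Finset ℕ)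
    (hE : ¬ ∃ d ∈ E, ∀ j < k, (a j (d + b)).Coprime b) (n : ℕ) (hd : n % b ∈ E) (hn : n ∈ Rough k r) :
    n < b ^ r := by
  rcases Nat.eq_zero_or_pos n with rfl | hn1
  · positivity
  push Not at hE
  obtain ⟨j, hj, hcop⟩ := hE (n % b) hd
  obtain ⟨p, hp, hp1, hp2⟩ := Nat.Prime.not_coprime_iff_dvd.mp hcop
  have h1 := hn j hj p hp (a_congr b j n p hb hn1 hp2 hp1)
  have hpb : (p : ℝ) ≤ b := by exact_mod_cast Nat.le_of_dvd (by omega) hp2
  have hn0 : (0 : ℝ) ≤ n := Nat.cast_nonneg n
  have hr0 : (r : ℝ) ≠ 0 := by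
    have : (0 : ℕ) < r := by omega
    exact_mod_cast this.ne'
  have h2 : ((n : ℝ) ^ (1 / (r : ℝ))) ^ r < (b : ℝ) ^ r :=
    pow_lt_pow_left₀ (h1.trans_le hpb) (by positivity) (by omega)
  rw [← Real.rpow_natCast, ← Real.rpow_mul hn0, one_div, inv_mul_cancel₀ hr0, Real.rpow_one] at h2
  exact_mod_cast h2

open Classical in
/-- **Almost prime chains of exact length `k` with restricted digits: the expected order, or bounded.** -/
theorem result (k : ℕ) (hk : 1 ≤ k) :
    ∃ c : ℝ, 0 < c ∧ ∃ r₀ : ℕ, 2 ≤ r₀ ∧ ∀ r : ℕ, r₀ ≤ r →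
      (∀ n : ℕ, (∀ j < k, (a j n).Prime) → n ∈ Rough k r) ∧
      ∀ b : ℕ, 2 ≤ b → ∃ κ C : ℝ, 0 < κ ∧ 0 < C ∧
        ∀ᶠ K : ℕ in atTop, ∀ D : ℕ → Finset ℕ, (∀ i < K, D i ⊆ range b) →
          (b : ℝ) ^ K ≤ Real.exp (c * K) * total K D →
          ((∃ d ∈ D 0, ∀ j < k, (a j (d + b)).Coprime b) →
            κ * total K D / (K : ℝ) ^ k ≤ count b K D (ExactAlmost k r)) ∧
          (count b K D (Rough k r) : ℝ) ≤ C * total K D / (K : ℝ) ^ k ∧
          ((¬ ∃ d ∈ D 0, ∀ j < k, (a j (d + b)).Coprime b) →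
            ∀ n ∈ Rough k r, (∀ i < K, n / b ^ i % b ∈ D i) → n < b ^ r) := by
  obtain ⟨c, hc, r0, hr0, h⟩ := Pool.Agent.Y816.PD.exact_chain a (Or.inr (fun j n => rfl)) k hk
  refine ⟨c, hc, r0, hr0, fun r hr => ⟨?_, ?_⟩⟩
  · intro n hn j hj p hp hd
    have h0 := hn 0 hk
    have e : a 0 n = (n - 1) + 1 := by
      unfold a
      ring
    have hn2 : 2 ≤ n := by
      have := h0.two_le
      omega
    rw [(Nat.prime_dvd_prime_iff_eq hp (hn j hj)).1 hd]
    refine Pool.Agent.TH977.PW.rpow_lt_of_le r n (a j n) (by omega) hn2 ?_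
    unfold a
    have h1 : 1 ≤ 2 ^ j := Nat.one_le_two_pow
    have h2 := Nat.mul_le_mul_right (n - 1) h1
    omega
  · intro b hb
    obtain ⟨κ, C, hκ, hC, h1⟩ := h r hr b hb
    refine ⟨κ, C, hκ, hC, ?_⟩
    filter_upwards [h1, eventually_ge_atTop 1] with K hK hK1 D hD hprod
    obtain ⟨g1, g2⟩ := hK D hD hprod
    refine ⟨fun hd => ?_, g2, fun hE n hn hdig => bounded k r b (by omega) hb (D 0) hE n ?_ hn⟩
    swap
    · have h3 := hdig 0 hK1
      rwa [pow_zero, Nat.div_one] at h3
    refine (g1 hd).trans (le_of_eq ?_)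
    have e : ({n | ((∀ j < k, ∀ p : ℕ, p.Prime → p ∣ a j n → (n : ℝ) ^ (1 / (r : ℝ)) < (p : ℝ)) ∧
            ∀ j < k, (a j n).primeFactorsList.length ≤ r) ∧ 1 < a k n ∧ ¬ (a k n).Prime} : Set ℕ) =
        ExactAlmost k r := by
      ext n
      constructor
      · rintro ⟨⟨h1, h2⟩, h3, h4⟩
        exact ⟨h1, h2, h3, h4⟩
      · rintro ⟨h1, h2, h3, h4⟩
        exact ⟨⟨h1, h2⟩, h3, h4⟩
    rw [e]
    rfl

end Pool.Agent.Results.MP_39b545_nt.DigitRestrictedExactChains
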