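import Pool.Agent.R498.MP.LinC

set_option autoImplicit false

/-!
# Strings of consecutive primes each of which starts an almost prime chain of exact length `k`

Let `a j p = 2 ^ j (p - 1) + 1`. For all `k, m ≥ 1` there are `K`, `r` and `δ > 0` such that for every set `S`
of at least `K` shifts and every `l` there is `B` such that for all large `N` there are a set `H ⊆ S` of at
least `m` elements and `n, d`, `1 ≤ d ≤ (log N) ^ B`, such that for all `j < l` the primes in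
`n + j d + [0, max S]` are `n + j d + h`, `h ∈ H`, and each of them starts an almost prime chain of the second
kind of exact length `k`: `a i p`, `1 ≤ i < k`, have at most `r` prime factors, all at least `N ^ δ`, and
`a k p` is composite. All these intervals are in `(N, 2 N]`.

The theorem of Maynard and Tao for runs of primes in a residue class with almost prime companions in narrow
progressions is in the starting library (`Pool.Agent.R498.MP`). The class modulo a prime `q > 2 ^ k` is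
chosen so that `q` divides `a k p` but none of the `a i p`, `i < k`.
-/

namespace Pool.Agent.Results.MP_39b545_nt.ExactChainsAtPrimeStrings

open Filter Finset
open Pool.Agent.R498.MP (AP lin_runsC)

/-- the term `a j p` of the chain `p, 2 p - 1, 4 p - 3, …` of the second kind -/
def a (j p : ℕ) : ℕ := 2 ^ j * (p - 1) + 1

/-- `p` is prime, `a j p`, `1 ≤ j < k`, have at most `r` prime factors (with multiplicity), all of them at least
`z`, and `a k p` is not prime -/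
def ExactChain (k r : ℕ) (z : ℝ) (p : ℕ) : Prop :=
  p.Prime ∧ (∀ j : ℕ, 1 ≤ j → j < k → (a j p).primeFactorsList.length ≤ r ∧
    ∀ q : ℕ, q.Prime → q ∣ a j p → z ≤ (q : ℝ)) ∧ ¬ (a k p).Prime

theorem ap_nat {r : ℕ} {w : ℝ} {n : ℕ} (h : AP r w (n : ℤ)) :
    n.primeFactorsList.length ≤ r ∧ ∀ p : ℕ, p.Prime → p ∣ n → w ≤ p := by
  obtain ⟨_, h1, h2⟩ := h
  rw [Int.natAbs_natCast] at h1
  exact ⟨h1, fun p hp hpn => h2 p hp (Int.natCast_dvd_natCast.2 hpn)⟩

/-- **Strings of consecutive primes which start almost prime chains of exact length `k`.** -/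
theorem result (k m : ℕ) (hk : 1 ≤ k) :
    ∃ (K r : ℕ) (δ : ℝ), 0 < δ ∧ ∀ S : Finset ℕ, K ≤ S.card → ∀ l : ℕ, ∃ B : ℕ, ∀ᶠ N : ℕ in atTop,
      ∃ H ⊆ S, m ≤ H.card ∧ ∃ n d : ℕ, 1 ≤ d ∧ (d : ℝ) ≤ Real.log N ^ B ∧ ∀ j < l,
        N < n + j * d ∧ n + j * d + S.sup id ≤ 2 * N ∧
        (∀ y ≤ S.sup id, (n + j * d + y).Prime ↔ y ∈ H) ∧
        ∀ h ∈ H, ExactChain k r ((N : ℝ) ^ δ) (n + j * d + h) := by
  obtain ⟨q, hqk, hq⟩ := Nat.exists_infinite_primes (2 ^ k + 1)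
  have hqi : Prime (q : ℤ) := Nat.prime_iff_prime_int.1 hq
  -- small powers of two are not one modulo `q`
  have hpow : ∀ i : ℕ, 1 ≤ i → i ≤ k → ¬ (q : ℤ) ∣ (2 : ℤ) ^ i - 1 := by
    intro i hi1 hik h
    have h1 : (2 : ℕ) ^ i ≤ 2 ^ k := Nat.pow_le_pow_right (by norm_num) hik
    have h2 : (2 : ℕ) ^ 1 ≤ 2 ^ i := Nat.pow_le_pow_right (by norm_num) hi1
    have h3 : (0 : ℤ) < (2 : ℤ) ^ i - 1 := by
      have : (2 : ℤ) ≤ (2 : ℤ) ^ i := by exact_mod_cast h2
      linarith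
    have h4 := Int.le_of_dvd h3 h
    have h5 : ((2 ^ i : ℕ) : ℤ) ≤ ((2 ^ k : ℕ) : ℤ) := by exact_mod_cast h1
    have h6 : ((2 ^ k + 1 : ℕ) : ℤ) ≤ (q : ℤ) := by exact_mod_cast hqk
    push_cast at h5 h6
    linarith
  have hq2 : ¬ (q : ℤ) ∣ 2 := by
    intro h
    have h1 : q ∣ 2 := by exact_mod_cast h
    have h2 := (Nat.prime_dvd_prime_iff_eq hq Nat.prime_two).1 h1
    have h3 : (2 : ℕ) ^ 1 ≤ 2 ^ k := Nat.pow_le_pow_right (by norm_num) hk
    omega
  have hqpow : ∀ i : ℕ, ¬ (q : ℤ) ∣ (2 : ℤ) ^ i := fun i h => hq2 (hqi.dvd_of_dvd_pow h)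
  -- the class
  obtain ⟨c, hc⟩ : ∃ c : ℕ, (q : ℤ) ∣ (2 : ℤ) ^ k * ((c : ℤ) - 1) + 1 := by
    have h1 : IsCoprime (q : ℤ) ((2 : ℤ) ^ k) := hqi.irreducible.coprime_iff_not_dvd.2 (hqpow k)
    obtain ⟨u, v, huv⟩ := h1
    refine ⟨((1 - v) % q).toNat, ?_⟩
    have hq0 : (q : ℤ) ≠ 0 := hqi.ne_zero
    rw [Int.toNat_of_nonneg (Int.emod_nonneg _ hq0)]
    have h2 : (q : ℤ) ∣ (1 - v) % q - (1 - v) := by
      have := (Int.dvd_self_sub_emod (x := (1 - v)) (m := (q : ℤ)))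
      have h3 := (dvd_neg (a := (q : ℤ))).2 this
      rwa [neg_sub] at h3
    have h3 : (2 : ℤ) ^ k * ((1 - v) % q - 1) + 1 = (2 : ℤ) ^ k * ((1 - v) % q - (1 - v)) + u * q := by
      linear_combination -huv
    rw [h3]
    exact dvd_add (h2.mul_left _) (dvd_mul_left _ _)
  have hc0 : ¬ (q : ℤ) ∣ (c : ℤ) := by
    intro h
    apply hpow k hk le_rfl
    have h1 : (2 : ℤ) ^ k - 1 = (2 : ℤ) ^ k * c - ((2 : ℤ) ^ k * ((c : ℤ) - 1) + 1) := by ring
    rw [h1]
    exact dvd_sub (h.mul_left _) hc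
  have hci : ∀ i : ℕ, i < k → ¬ (q : ℤ) ∣ (2 : ℤ) ^ i * c + (1 - (2 : ℤ) ^ i) := by
    intro i hi h
    apply hpow (k - i) (by omega) (by omega)
    have h1 : (2 : ℤ) ^ (k - i) * (2 : ℤ) ^ i = (2 : ℤ) ^ k := by
      rw [← pow_add]
      congr 1
      omega
    have h2 : (2 : ℤ) ^ (k - i) - 1 = (2 : ℤ) ^ (k - i) * ((2 : ℤ) ^ i * c + (1 - (2 : ℤ) ^ i)) -
        ((2 : ℤ) ^ k * ((c : ℤ) - 1) + 1) := by
      rw [← h1]
      ring
    rw [h2]
    exact dvd_sub (h.mul_left _) hc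
  obtain ⟨K, r, δ, hδ, h1⟩ := lin_runsC (k - 1) (fun i => (2 : ℤ) ^ ((i : ℕ) + 1))
    (fun i => 1 - (2 : ℤ) ^ ((i : ℕ) + 1)) (fun i => by positivity) (by
      intro p hp
      refine ⟨1, fun h => ?_⟩
      have h2 : ∏ i : Fin (k - 1), ((2 : ℤ) ^ ((i : ℕ) + 1) * 1 + (1 - (2 : ℤ) ^ ((i : ℕ) + 1))) = 1 :=
        prod_eq_one fun i _ => by ring
      rw [h2] at h
      have h3 : (p : ℤ) ∣ 1 := by simpa using h
      have : p ∣ 1 := by exact_mod_cast h3
      exact hp.one_lt.ne' (Nat.dvd_one.1 this))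
    q c hq.prime.squarefree (by
      refine IsCoprime.symm (hqi.irreducible.coprime_iff_not_dvd.2 ?_)
      intro h
      rcases hqi.dvd_or_dvd h with h | h
      · exact hc0 h
      · obtain ⟨i, _, hi⟩ := (Prime.dvd_finsetProd_iff hqi _).1 h
        exact hci (i + 1) (by have := i.2; omega) hi) m
  refine ⟨K, r, δ, hδ, fun S hS l => ?_⟩
  obtain ⟨B, hB⟩ := h1 S hS l
  refine ⟨B, ?_⟩
  filter_upwards [hB, eventually_ge_atTop (q + 2)] with N hN hNq
  obtain ⟨H, hHS, hHm, n, d, hd1, hd2, h2⟩ := hN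
  refine ⟨H, hHS, hHm, n, d, hd1, hd2, fun j hj => ?_⟩
  obtain ⟨h3, h4, h5, h6⟩ := h2 j hj
  refine ⟨h3, h4, fun y hy => ⟨fun hyp => ?_, fun hyH => (h5 y hyH).1⟩, fun h hh => ?_⟩
  · by_contra hyH
    refine h6 y hy hyH (fun h _ _ i hi => ?_) hyp
    have h7 : (2 : ℤ) ∣ 1 := by
      have h8 : (1 : ℤ) = 2 * ((2 : ℤ) ^ (i : ℕ) - (2 : ℤ) ^ (i : ℕ) * ((h : ℤ) - y)) := by
        rw [pow_succ] at hi
        linear_combination hi
      rw [h8]
      exact dvd_mul_right _ _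
    norm_num at h7
  · obtain ⟨h7, h8, h9⟩ := h5 h hh
    obtain ⟨p, hp⟩ : ∃ p : ℕ, p = n + j * d + h := ⟨_, rfl⟩
    rw [← hp] at h7 h8 h9 ⊢
    have hp1 : 1 ≤ p := h7.one_lt.le
    have hpN : N < p := by omega
    refine ⟨h7, fun i hi1 hik => ?_, ?_⟩
    · have h10 := h9 ⟨i - 1, by omega⟩
      simp only [Nat.sub_add_cancel hi1] at h10
      have h11 : (2 : ℤ) ^ i * (p : ℤ) + (1 - (2 : ℤ) ^ i) = ((a i p : ℕ) : ℤ) := by
        unfold a
        push_cast [Nat.cast_sub hp1]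
        ring
      rw [h11] at h10
      exact ap_nat h10
    · intro hprime
      have h10 : (q : ℤ) ∣ ((a k p : ℕ) : ℤ) := by
        have h11 : ((a k p : ℕ) : ℤ) = (2 : ℤ) ^ k * ((p : ℤ) - c) + ((2 : ℤ) ^ k * ((c : ℤ) - 1) + 1) := by
          unfold a
          push_cast [Nat.cast_sub hp1]
          ring
        rw [h11]
        refine dvd_add (Dvd.dvd.mul_left ?_ _) hc
        have h12 := (Nat.modEq_iff_dvd.1 h8.symm)
        exact h12
      have h11 : q ∣ a k p := by exact_mod_cast h10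
      have h12 := (Nat.prime_dvd_prime_iff_eq hq hprime).1 h11
      have h13 : p - 1 ≤ 2 ^ k * (p - 1) := Nat.le_mul_of_pos_left _ (by positivity)
      unfold a at h12
      omega

end Pool.Agent.Results.MP_39b545_nt.ExactChainsAtPrimeStrings
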