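import Pool.Agent.L5helper4.DL.Up

/-!
# Almost prime chains of the second kind of exact length `k`: popular differences of the starting points

Let `a j p = 2 ^ j (p - 1) + 1`. The prime `p` starts an almost prime chain of exact length `k` if `a j p`,
`1 ≤ j < k`, have at most `r` prime factors, all of them larger than `z = x ^ (1 / r)`, and `a k p` is not prime.

Theorem. For every `k ≥ 1` there is `r` such that the set of all these `p ≤ x` has the following property, for every
`l`. For EVERY `D` between `(log x) ^ B` and `x / (log x) ^ B` at least `c D` of the differences `d ≤ D` are such that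
ALL the parts `F ∋ 0` of the progression `0, 1, …, l - 1` occur in the set with the difference `d` at least
`c x / (log x) ^ (k |F|)` times, which is the order of magnitude of the prediction of Dickson, Bateman and Horn for
chains of primes. The same is true for ALL sets of at least `δ x / (log x) ^ k` primes `p ≤ x` such that the
`a j p`, `1 ≤ j < k`, have no prime factor `≤ x ^ κ`; for instance for the starting points of chains of primes of exact
length `k`, if they have the expected order of magnitude.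

Method. A sieve majorant for the set in windows of length `D` (`Pool.Agent.Y843.HS`, helper843 and others), the
relative Szemerédi theorem of Conlon, Fox and Zhao (`Pool.Agent.Y727.PSP`, helper727 and others), and, for the
differences and the parts of the progression, `Pool.Agent.L5helper4.DL`. The lower bound for the number of the `p`
with almost prime `a j p` is in `Pool.Agent.H373R2.T7` (with the theorem of Bombieri and Vinogradov); the `p` with
`a k p` prime are removed by an upper bound sieve (`Pool.Agent.Y959.Sv.Up`, helper959).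
-/

set_option autoImplicit false

namespace Pool.Agent.Results.MP_39b545_nt.PopularDifferences

open Finset Filter Polynomial
open Pool.Agent.W182.PW Pool.Agent.W123.RU.Poly

/-- the term `a j p` of the chain `p, 2 p - 1, 4 p - 3, …` of the second kind -/
def a (j p : ℕ) : ℕ := 2 ^ j * (p - 1) + 1

/-- `p` is prime, `a j p`, `1 ≤ j < k`, have at most `r` prime factors (with multiplicity), all of them larger than
`z`, and `a k p` is not prime -/
def ExactChain (k r : ℕ) (z : ℝ) (p : ℕ) : Prop :=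
  p.Prime ∧ (∀ j : ℕ, 1 ≤ j → j < k → (a j p).primeFactorsList.length ≤ r ∧
    ∀ q : ℕ, q.Prime → q ∣ a j p → z < (q : ℝ)) ∧ ¬ (a k p).Prime

open Classical in
/-- the number of the elements `p` of `P` such that `p + j d` is in `P` for all `j ∈ F` -/
noncomputable def occurrences (P : Finset ℕ) (F : Finset ℕ) (d : ℕ) : ℕ :=
  (P.filter (fun p => ∀ j ∈ F, p + j * d ∈ P)).card

open Classical in
/-- For all `D` between `(log x) ^ B` and `x / (log x) ^ B` at least `c D` of the `1 ≤ d ≤ D` are such that for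
every `F ⊆ {0, …, l - 1}` with `0 ∈ F` at least `c x / (log x) ^ (k |F|)` elements `p` of `P` are such that
`p + j d` is in `P` for all `j ∈ F`. -/
def Popular (k l B : ℕ) (c : ℝ) (x : ℕ) (P : Finset ℕ) : Prop :=
  ∀ D : ℕ, Real.log x ^ B ≤ D → D * Real.log x ^ B ≤ x →
    c * D ≤ (((Icc 1 D).filter (fun d => ∀ F ⊆ range l, 0 ∈ F →
      c * (x / Real.log x ^ (k * F.card)) ≤ (occurrences P F d : ℝ))).card : ℝ)

/-- the polynomials of the chain -/
noncomputable def ch (n : ℕ) (i : Fin n) : ℤ[X] := C ((2 : ℤ) ^ ((i : ℕ) + 1)) * X + C (1 - (2 : ℤ) ^ ((i : ℕ) + 1))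

lemma ch_eval (n : ℕ) (i : Fin n) (p : ℕ) (hp : 1 ≤ p) : (ch n i).eval (p : ℤ) = ((a (i + 1) p : ℕ) : ℤ) := by
  unfold ch a
  simp only [eval_add, eval_mul, eval_C, eval_X]
  push_cast [Nat.cast_sub hp]
  ring

lemma ch_deg (n : ℕ) (i : Fin n) : (ch n i).natDegree = 1 :=
  natDegree_linear (by positivity)

lemma ch_lead (n : ℕ) (i : Fin n) : (ch n i).leadingCoeff = (2 : ℤ) ^ ((i : ℕ) + 1) :=
  leadingCoeff_linear (by positivity)

lemma sys (n : ℕ) : Sys (ext (ch n)) :=
  Pool.Agent.L5helper4.DL.sys_ext (ch n)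
    (fun i => by
      unfold ch
      refine irreducible_C_mul_X_add_C (by positivity) ?_
      have h : IsCoprime ((2 : ℤ) ^ ((i : ℕ) + 1)) (1 - (2 : ℤ) ^ ((i : ℕ) + 1)) := ⟨1, 1, by ring⟩
      exact h.isRelPrime)
    (fun i => by rw [ch_deg]; norm_num)
    (fun i => by rw [ch_lead]; positivity)
    (fun i j h => by
      have h1 := congrArg Polynomial.leadingCoeff h
      rw [ch_lead, ch_lead] at h1
      have h2 := pow_right_injective₀ (by norm_num : (0 : ℤ) < 2) (by norm_num) h1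
      apply Fin.ext
      omega)
    (fun i h => by
      have h1 := congrArg Polynomial.leadingCoeff h
      rw [ch_lead, leadingCoeff_X] at h1
      have h2 : (2 : ℤ) ^ ((i : ℕ) + 1) = 2 * 2 ^ (i : ℕ) := by ring
      rw [h2] at h1
      omega)
    (fun p hp => ⟨1, fun h => hp.one_lt.ne' (Nat.dvd_one.1 h), fun i h => by
      rw [ch_eval n i 1 le_rfl] at h
      have h1 : p ∣ a (i + 1) 1 := by exact_mod_cast h
      have h2 : a (i + 1) 1 = 1 := by unfold a; simp
      rw [h2] at h1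
      exact hp.one_lt.ne' (Nat.dvd_one.1 h1)⟩)

lemma prime_almost {k r : ℕ} (hk : 1 ≤ k) {z : ℝ} {p : ℕ} (h : PrimeAlmost (ch (k - 1)) r z p) :
    p.Prime ∧ ∀ j : ℕ, 1 ≤ j → j < k → (a j p).primeFactorsList.length ≤ r ∧
    ∀ q : ℕ, q.Prime → q ∣ a j p → z < (q : ℝ) := by
  obtain ⟨h1, h2⟩ := h
  refine ⟨h1, fun j hj hjk => ?_⟩
  have h3 := h2 ⟨j - 1, by omega⟩
  rw [ch_eval _ _ _ h1.one_le] at h3
  have e : ((⟨j - 1, by omega⟩ : Fin (k - 1)) : ℕ) + 1 = j := by simp only; omega
  rw [e, Int.natAbs_natCast] at h3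
  exact ⟨h3.1, fun q hq hd => h3.2 q hq (Int.natCast_dvd_natCast.2 hd)⟩

/-- the relative theorem -/
theorem rel (k : ℕ) (hk : 1 ≤ k) (l : ℕ) (κ δ : ℝ) (hκ : 0 < κ) (hκ1 : κ < 1) (hδ : 0 < δ) :
    ∃ (B : ℕ) (c : ℝ), 0 < c ∧ ∀ᶠ x : ℕ in atTop, ∀ P : Finset ℕ,
      (∀ p ∈ P, p ≤ x ∧ p.Prime ∧ ∀ j : ℕ, 1 ≤ j → j < k → ∀ q : ℕ, q.Prime → q ∣ a j p →
        (x : ℝ) ^ κ < (q : ℝ)) →
      δ * (x / Real.log x ^ k) ≤ P.card → Popular k l B c x P := by
  obtain ⟨B, c, hc, h⟩ := Pool.Agent.L5helper4.DL.polyDense (ch (k - 1)) (sys _) l κ δ hκ hκ1 hδ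
  refine ⟨B, c, hc, ?_⟩
  have e : Fintype.card (Fin (k - 1)) + 1 = k := by
    rw [Fintype.card_fin]
    omega
  rw [e] at h
  filter_upwards [h] with x hx P hP hPc D hD1 hD2
  have h1 := hx P (fun p hp => ⟨(hP p hp).1, (hP p hp).2.1, fun i q hq hd => by
    rw [ch_eval _ _ _ (hP p hp).2.1.one_le] at hd
    exact (hP p hp).2.2 (i + 1) (by omega) (by omega) q hq (Int.natCast_dvd_natCast.1 hd)⟩) hPc D
      hD1 hD2
  unfold occurrences
  convert h1 using 4

open Classical in
/-- the number of the starting points of almost prime chains of exact length `k` -/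
theorem many (k : ℕ) (hk : 1 ≤ k) : ∃ (R : ℕ) (c : ℝ), 2 ≤ R ∧ 0 < c ∧ ∀ᶠ x : ℕ in atTop,
    c * (x / Real.log x ^ k) ≤
      (((Icc 1 x).filter (fun p => ExactChain k R ((x : ℝ) ^ (1 / (R : ℝ))) p)).card : ℝ) := by
  obtain ⟨R, hR, h⟩ := Pool.Agent.L5helper4.DL.polyPrimes (ch (k - 1)) (sys _)
  obtain ⟨B₁, c₁, hc₁, h1⟩ := h 1
  have e : Fintype.card (Fin (k - 1)) + 1 = k := by
    rw [Fintype.card_fin]
    omega
  rw [e] at h1
  have hRr : (2 : ℝ) ≤ R := by exact_mod_cast hR
  obtain ⟨C, hC, hup⟩ := Pool.Agent.L5helper4.DL.polyUp (ext (ch k)) (sys k) (1 / (R : ℝ)) (by positivity)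
  have e2 : Fintype.card (Option (Fin k)) = k + 1 := by
    rw [Fintype.card_option, Fintype.card_fin]
  rw [e2] at hup
  refine ⟨R, c₁ / 2, hR, by positivity, ?_⟩
  have tN : Tendsto (fun N : ℕ => (N : ℝ)) atTop atTop := tendsto_natCast_atTop_atTop
  have hlog : ∀ (n : ℕ) (ε b : ℝ), 0 < ε → 0 < b → ∀ᶠ x : ℕ in atTop,
      Real.log x ^ n ≤ ε * (x : ℝ) ^ b := by
    intro n ε b hε hb
    have h3 := (isLittleO_log_rpow_rpow_atTop (n : ℝ) hb).bound hε
    filter_upwards [tN.eventually h3, eventually_ge_atTop 1] with x hx hx1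
    have hl : 0 ≤ Real.log x := Real.log_nonneg (by exact_mod_cast hx1)
    rw [Real.norm_of_nonneg (by positivity), Real.norm_of_nonneg (by positivity),
      Real.rpow_natCast] at hx
    exact hx
  have hlog1 : ∀ᶠ x : ℕ in atTop, max 2 (4 * C / c₁) ≤ Real.log x :=
    (Real.tendsto_log_atTop.comp tN).eventually_ge_atTop _
  filter_upwards [h1, hup, hlog (2 * B₁ + 2) 1 1 one_pos one_pos, hlog k (c₁ / 4) (1 / 2)
    (by positivity) (by norm_num), hlog1, eventually_ge_atTop 1] with x h1 hup h3 h3' h4' hx1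
  have h4 : 2 ≤ Real.log x := (le_max_left _ _).trans h4'
  have h4C : 4 * C / c₁ ≤ Real.log x := (le_max_right _ _).trans h4'
  rw [Real.rpow_one, one_mul] at h3
  have hx0 : (0 : ℝ) < x := by exact_mod_cast hx1
  have hx1r : (1 : ℝ) ≤ x := by exact_mod_cast hx1
  set D := ⌈Real.log x ^ B₁⌉₊ with hD
  have hp1 : 1 ≤ Real.log x ^ B₁ := one_le_pow₀ (by linarith)
  have hD1 : Real.log x ^ B₁ ≤ D := Nat.le_ceil _
  have hD2 : (D : ℝ) ≤ 2 * Real.log x ^ B₁ := by
    have := Nat.ceil_lt_add_one (show 0 ≤ Real.log x ^ B₁ by positivity)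
    rw [← hD] at this
    linarith
  have h5 := h1 D hD1 (by
    calc (D : ℝ) * Real.log x ^ B₁ ≤ 2 * Real.log x ^ B₁ * Real.log x ^ B₁ := by gcongr
      _ ≤ Real.log x ^ 2 * Real.log x ^ B₁ * Real.log x ^ B₁ := by
          gcongr
          nlinarith
      _ = Real.log x ^ (2 * B₁ + 2) := by ring
      _ ≤ x := h3)
  have hD0 : (0 : ℝ) < D := by linarith
  have h6 := lt_of_lt_of_le (show 0 < c₁ * (D : ℝ) by positivity) h5
  obtain ⟨d, hd⟩ := card_pos.1 (Nat.cast_pos.1 h6)
  rw [mem_filter] at hd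
  have h8 := hd.2 {0} (by simp) (by simp)
  set A := (Icc 1 x).filter (fun p => ∀ j ∈ ({0} : Finset ℕ),
            PrimeAlmost (ch (k - 1)) R ((x : ℝ) ^ (1 / (R : ℝ))) (p + j * d)) with hA
  set E := (Icc 1 x).filter (fun p => ExactChain k R ((x : ℝ) ^ (1 / (R : ℝ))) p) with hE
  set U := (Icc 1 x).filter (fun n => ∀ p : ℕ, p.Prime → (p : ℝ) ≤ (x : ℝ) ^ (1 / (R : ℝ)) →
    ¬ Q (ext (ch k)) p n) with hU
  have hsub : A ⊆ E ∪ (U ∪ Icc 1 ⌊(x : ℝ) ^ (1 / (R : ℝ))⌋₊) := by
    intro p hp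
    rw [hA, mem_filter] at hp
    have h9 := hp.2 0 (by simp)
    rw [zero_mul, add_zero] at h9
    obtain ⟨h10, h11⟩ := prime_almost hk h9
    by_cases h12 : (a k p).Prime
    · apply mem_union_right
      by_cases h13 : (p : ℝ) ≤ (x : ℝ) ^ (1 / (R : ℝ))
      · apply mem_union_right
        rw [mem_Icc]
        exact ⟨h10.one_le, Nat.le_floor h13⟩
      · apply mem_union_left
        rw [hU, mem_filter]
        refine ⟨hp.1, fun q hq hqx => ?_⟩
        rw [Q_ext]
        rintro (h14 | ⟨i, hi⟩)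
        · have h15 := (Nat.prime_dvd_prime_iff_eq hq h10).1 h14
          rw [h15] at hqx
          exact h13 hqx
        · rw [ch_eval _ _ _ h10.one_le] at hi
          have hi' : q ∣ a (i + 1) p := Int.natCast_dvd_natCast.1 hi
          by_cases h16 : (i : ℕ) + 1 < k
          · have h17 := (h11 (i + 1) (by omega) h16).2 q hq hi'
            linarith
          · have h18 : (i : ℕ) + 1 = k := by omega
            rw [h18] at hi'
            have h15 := (Nat.prime_dvd_prime_iff_eq hq h12).1 hi'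
            have h19 : p ≤ a k p := by
              unfold a
              have h20 : 1 ≤ 2 ^ k := Nat.one_le_two_pow
              have h21 := Nat.mul_le_mul_right (p - 1) h20
              have h22 := h10.one_le
              omega
            have h23 : (p : ℝ) ≤ q := by
              rw [h15]
              exact_mod_cast h19
            exact h13 (h23.trans hqx)
    · apply mem_union_left
      rw [hE, mem_filter]
      exact ⟨hp.1, h10, h11, h12⟩
  have h9 : (A.card : ℝ) ≤ E.card + (U.card + (x : ℝ) ^ (1 / (R : ℝ))) := by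
    have h10 := (card_le_card hsub).trans ((card_union_le _ _).trans
      (Nat.add_le_add_left (card_union_le _ _) _))
    rw [Nat.card_Icc, Nat.add_sub_cancel] at h10
    have h11 : (⌊(x : ℝ) ^ (1 / (R : ℝ))⌋₊ : ℝ) ≤ (x : ℝ) ^ (1 / (R : ℝ)) := Nat.floor_le (by positivity)
    have h12 : (A.card : ℝ) ≤ E.card + (U.card + ⌊(x : ℝ) ^ (1 / (R : ℝ))⌋₊) := by exact_mod_cast h10
    linarith
  have h10 : (x : ℝ) ^ (1 / (R : ℝ)) ≤ c₁ / 4 * (x / Real.log x ^ k) := by
    have h11 : (x : ℝ) ^ (1 / (R : ℝ)) ≤ (x : ℝ) ^ (1 / 2 : ℝ) :=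
      Real.rpow_le_rpow_of_exponent_le hx1r (one_div_le_one_div_of_le (by norm_num) hRr)
    refine h11.trans ?_
    rw [← mul_div_assoc, le_div_iff₀ (by positivity)]
    calc (x : ℝ) ^ (1 / 2 : ℝ) * Real.log x ^ k ≤ (x : ℝ) ^ (1 / 2 : ℝ) * (c₁ / 4 * (x : ℝ) ^ (1 / 2 : ℝ)) := by
          gcongr
      _ = c₁ / 4 * ((x : ℝ) ^ (1 / 2 : ℝ) * (x : ℝ) ^ (1 / 2 : ℝ)) := by ring
      _ = c₁ / 4 * x := by
          rw [← Real.rpow_add hx0]
          norm_num
  have h11 : (U.card : ℝ) ≤ c₁ / 4 * (x / Real.log x ^ k) := by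
    refine le_trans (by convert hup) ?_
    have h12 : C ≤ c₁ / 4 * Real.log x := by
      rw [div_le_iff₀ hc₁] at h4C
      linarith
    calc C * (x / Real.log x ^ (k + 1)) ≤ c₁ / 4 * Real.log x * (x / Real.log x ^ (k + 1)) := by gcongr
      _ = c₁ / 4 * (x / Real.log x ^ k) := by
          rw [pow_succ]
          have : Real.log x ≠ 0 := by linarith
          field_simp
  have h12 : c₁ * (x / Real.log x ^ k) ≤ A.card := by
    have h13 := h8
    rw [card_singleton, mul_one] at h13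
    exact h13
  linarith

open Classical in
/-- **Almost prime chains of the second kind of exact length `k`.** Let `k ≥ 1`. (1) For all `l`, `0 < κ < 1` and
`δ > 0` there are `B` and `c > 0` such that for all large `x` every set `P` of at least `δ x / (log x) ^ k` primes
`p ≤ x`, for which no `a j p`, `1 ≤ j < k`, has a prime factor `≤ x ^ κ`, is popular. (2) There is `r` such that for
all `l` there are `B` and `c > 0` such that for all large `x` the set of all `p ≤ x` which start an almost prime chain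
of exact length `k` is popular. -/
theorem result (k : ℕ) (hk : 1 ≤ k) :
    (∀ (l : ℕ) (κ δ : ℝ), 0 < κ → κ < 1 → 0 < δ → ∃ (B : ℕ) (c : ℝ), 0 < c ∧ ∀ᶠ x : ℕ in atTop,
      ∀ P : Finset ℕ, (∀ p ∈ P, p ≤ x ∧ p.Prime ∧ ∀ j : ℕ, 1 ≤ j → j < k → ∀ q : ℕ, q.Prime →
        q ∣ a j p → (x : ℝ) ^ κ < (q : ℝ)) →
      δ * (x / Real.log x ^ k) ≤ P.card → Popular k l B c x P) ∧
    ∃ r : ℕ, ∀ l : ℕ, ∃ (B : ℕ) (c : ℝ), 0 < c ∧ ∀ᶠ x : ℕ in atTop,
      Popular k l B c x ((Icc 1 x).filter (fun p => ExactChain k r ((x : ℝ) ^ (1 / (r : ℝ))) p)) := by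
  refine ⟨fun l κ δ hκ hκ1 hδ => rel k hk l κ δ hκ hκ1 hδ, ?_⟩
  obtain ⟨R, c₀, hR, hc₀, hm⟩ := many k hk
  have hRr : (2 : ℝ) ≤ R := by exact_mod_cast hR
  refine ⟨R, fun l => ?_⟩
  obtain ⟨B, c, hc, h⟩ := rel k hk l (1 / (R : ℝ)) c₀ (by positivity) (by
    rw [div_lt_one (by linarith)]
    linarith) hc₀
  refine ⟨B, c, hc, ?_⟩
  filter_upwards [h, hm] with x h hm
  refine h _ (fun p hp => ?_) hm
  rw [mem_filter, mem_Icc] at hp
  exact ⟨hp.1.2, hp.2.1, fun j h1 h2 q hq hd => (hp.2.2.1 j h1 h2).2 q hq hd⟩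

end Pool.Agent.Results.MP_39b545_nt.PopularDifferences
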