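import Pool.Agent.L5helper16.RG.Up

set_option autoImplicit false

/-!
# Regular neighbourhoods of the starting points of chains of the second kind of exact length `k`

Let `a j m = 2 ^ j (m - 1) + 1`. Let `R k r` be the set of the positive integers `m` such that all prime factors of
`a 0 m = m, a 1 m, …, a (k - 1) m` are larger than `m ^ (1 / r)`; it contains the starting points of all chains of
primes of length at least `k`, in particular those of exact length `k`. In every short interval `(X, X + Y]`,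
`X ^ θ ≤ Y ≤ X / 2`, there are at least `κ Y / log ^ k X` elements `m` of `R k r` such that `a j m` has at most `r`
prime factors for all `j < k` and `a k m` is not prime (chains of exact length `k`). Let `A` be an ARBITRARY subset
of `R k r` (for example the set of the starting points of all chains of primes of exact length `k`). In every such
interval all but `ε Y / log ^ k X` of the elements of `A` are regular points of `A`: the elements of `A` in ALL
intervals of length between `log ^ k X / c` and `Y` around them have the right order, and constant density up to `δ`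
at all but `B (ε, δ)` dyadic scales.
-/

namespace Pool.Agent.Results.MP_39b545_nt.RegularExactChains

open Finset Filter Polynomial
open Pool.Agent.TH977.PW (N Irregular)
open Pool.Agent.W123.RU.Poly Pool.Agent.W182.PW

/-- the term `a j m` of the chain `m, 2 m - 1, 4 m - 3, …` of the second kind -/
def a (j m : ℕ) : ℕ := 2 ^ j * (m - 1) + 1

/-- `m` is positive and all prime factors of `a j m`, `j < k`, are larger than `m ^ (1 / r)`. -/
def R (k r : ℕ) : Set ℕ :=
  {m | 0 < m ∧ ∀ j < k, ∀ q : ℕ, q.Prime → q ∣ a j m → (m : ℝ) ^ (1 / (r : ℝ)) < (q : ℝ)}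

/-- `m` is in `R k r`, all `a j m`, `j < k`, have at most `r` prime factors, and `a k m` is not prime. -/
def ExactAlmost (k r : ℕ) : Set ℕ :=
  {m | m ∈ R k r ∧ (∀ j < k, (a j m).primeFactorsList.length ≤ r) ∧ ¬ (a k m).Prime}

/-- the forms of the chain -/
noncomputable def ch (n : ℕ) (i : Fin n) : ℤ[X] := lin (2 ^ (i : ℕ)) (1 - (2 : ℤ) ^ (i : ℕ))

lemma ch_eval (n : ℕ) (i : Fin n) (m : ℕ) (hm : 0 < m) : (ch n i).eval (m : ℤ) = ((a i m : ℕ) : ℤ) := by
  unfold ch a
  rw [lin_eval]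
  push_cast [Nat.cast_sub (show 1 ≤ m from hm)]
  ring

lemma sys (n : ℕ) : Sys (ch n) :=
  Pool.Agent.TH977.PW.sys_lin (fun i : Fin n => 2 ^ (i : ℕ)) (fun i => 1 - (2 : ℤ) ^ (i : ℕ))
    (fun i => by positivity)
    (fun i => ⟨1, 1, by push_cast; ring⟩)
    (fun i j h _ => Fin.ext (Nat.pow_right_injective le_rfl h))
    (fun p hp => ⟨1, fun i h => by
      have h1 : (((2 ^ (i : ℕ) : ℕ) : ℤ) * ((1 : ℕ) : ℤ) + (1 - (2 : ℤ) ^ (i : ℕ))) = ((1 : ℕ) : ℤ) := by
        push_cast
        ring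
      rw [h1, Int.natCast_dvd_natCast] at h
      exact hp.one_lt.ne' (Nat.dvd_one.1 h)⟩)

lemma le_a (j m : ℕ) (hm : 0 < m) : m ≤ a j m := by
  unfold a
  have h1 : 1 ≤ 2 ^ j := Nat.one_le_two_pow
  have h2 := Nat.mul_le_mul_right (m - 1) h1
  omega

/-- **Regular neighbourhoods of the starting points of chains of exact length `k`.** -/
theorem result (k : ℕ) (hk : 1 ≤ k) (θ : ℝ) (hθ : 0 < θ) (hθ1 : θ ≤ 1) :
    ∃ r₀ : ℕ, 2 ≤ r₀ ∧ ∀ r : ℕ, r₀ ≤ r →
      (∀ m : ℕ, (∀ j < k, (a j m).Prime) → m ∈ R k r) ∧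
      (∃ κ : ℝ, 0 < κ ∧ ∀ᶠ X : ℕ in atTop, ∀ Y : ℕ, (X : ℝ) ^ θ ≤ Y → 2 * Y ≤ X →
        κ * Y / Real.log X ^ k ≤ N (ExactAlmost k r) X (X + Y)) ∧
      ∀ ε : ℝ, 0 < ε → ∃ c : ℝ, 0 < c ∧ ∀ δ : ℝ, 0 < δ → ∃ B : ℕ,
        ∀ᶠ X : ℕ in atTop, ∀ Y : ℕ, (X : ℝ) ^ θ ≤ Y → 2 * Y ≤ X → ∀ A : Set ℕ, A ⊆ R k r →
          (N (Irregular A k c δ B X Y) X (X + Y) : ℝ) ≤ ε * Y / Real.log X ^ k := by
  have : Nonempty (Fin k) := ⟨⟨0, hk⟩⟩
  obtain ⟨r1, hr1, h⟩ := Pool.Agent.TH977.PW.final (ch k) (sys k)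
    (fun r => R k r)
    (fun r => {m | 0 < m → (m ∈ R k r ∧ ∀ j < k, (a j m).primeFactorsList.length ≤ r)}) k (by simp)
    (fun r m _ hm i p hp hd => by
      rw [ch_eval k i m hm.1, Int.natCast_dvd_natCast] at hd
      exact hm.2 i i.2 p hp hd)
    (fun r m _ h1 h2 => by
      intro hm
      refine ⟨⟨hm, fun j hj q hq hd => h1 ⟨j, hj⟩ q hq ?_⟩, fun j hj => ?_⟩
      · rw [ch_eval k _ m hm, Int.natCast_dvd_natCast]
        exact hd
      · have := h2 ⟨j, hj⟩
        rw [ch_eval k _ m hm, Int.natAbs_natCast] at this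
        exact this) θ hθ hθ1
  obtain ⟨r2, hr2, hup⟩ := Pool.Agent.L5helper16.RG.up (ch (k + 1)) (sys (k + 1)) θ hθ hθ1
  refine ⟨max r1 r2, hr1.trans (le_max_left _ _), fun r hr => ⟨?_, ?_, ?_⟩⟩
  · intro m hm
    have h0 := hm 0 hk
    have e : a 0 m = (m - 1) + 1 := by
      unfold a
      ring
    have hm2 : 2 ≤ m := by
      have := h0.two_le
      omega
    refine ⟨by omega, fun j hj q hq hd => ?_⟩
    rw [(Nat.prime_dvd_prime_iff_eq hq (hm j hj)).1 hd]
    exact Pool.Agent.TH977.PW.rpow_lt_of_le r m (a j m) (by omega) hm2 (le_a j m (by omega))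
  · obtain ⟨κ, hκ, h1⟩ := (h r ((le_max_left _ _).trans hr)).1
    obtain ⟨C, hC, h2⟩ := hup r ((le_max_right _ _).trans hr)
    rw [Fintype.card_fin] at h2
    refine ⟨κ / 2, by positivity, ?_⟩
    have hlog : Tendsto (fun X : ℕ => Real.log (X : ℝ)) atTop atTop :=
      Real.tendsto_log_atTop.comp tendsto_natCast_atTop_atTop
    filter_upwards [h1, h2, hlog.eventually_ge_atTop (2 * C / κ), hlog.eventually_ge_atTop 1,
      eventually_ge_atTop 2] with X hX1 hX2 hX3 hX4 hX5 Y hXY hYX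
    have g1 := hX1 Y hXY (by omega)
    have g2 := hX2 Y hXY hYX
    have g3 : N {m | 0 < m → (m ∈ R k r ∧ ∀ j < k, (a j m).primeFactorsList.length ≤ r)} X (X + Y) ≤
        N (ExactAlmost k r) X (X + Y) + N {m | Pool.Agent.TH977.PW.Rough (ch (k + 1)) r m} X (X + Y) := by
      apply Pool.Agent.L5helper16.RG.N_or
      intro m hm1 hm2 hm3
      obtain ⟨h4, h5⟩ := hm3 (by omega)
      by_cases h6 : (a k m).Prime
      · right
        intro i q hq hd
        rw [ch_eval (k + 1) i m h4.1, Int.natCast_dvd_natCast] at hd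
        by_cases h7 : (i : ℕ) < k
        · exact h4.2 i h7 q hq hd
        · have h8 : (i : ℕ) = k := by omega
          rw [h8] at hd
          rw [(Nat.prime_dvd_prime_iff_eq hq h6).1 hd]
          exact Pool.Agent.TH977.PW.rpow_lt_of_le r m (a k m) (by omega) (by omega)
            (le_a k m (by omega))
      · exact Or.inl ⟨h4, h5, h6⟩
    have g4 : (N {m | 0 < m → (m ∈ R k r ∧ ∀ j < k, (a j m).primeFactorsList.length ≤ r)} X (X + Y) : ℝ) ≤
        N (ExactAlmost k r) X (X + Y) + N {m | Pool.Agent.TH977.PW.Rough (ch (k + 1)) r m} X (X + Y) := by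
      exact_mod_cast g3
    have hL : 0 < Real.log X := by linarith
    have g5 : C * Y / Real.log X ^ (k + 1) ≤ κ / 2 * Y / Real.log X ^ k := by
      rw [div_le_div_iff₀ (by positivity) (by positivity)]
      rw [div_le_iff₀ hκ] at hX3
      have hY0 : (0 : ℝ) ≤ Y := Nat.cast_nonneg _
      have : C ≤ κ / 2 * Real.log X := by linarith
      calc C * Y * Real.log X ^ k ≤ κ / 2 * Real.log X * Y * Real.log X ^ k := by gcongr
        _ = κ / 2 * Y * Real.log X ^ (k + 1) := by ring
    have g6 : κ * Y / Real.log X ^ k = κ / 2 * Y / Real.log X ^ k + κ / 2 * Y / Real.log X ^ k := by ring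
    linarith
  · intro ε hε
    exact (h r ((le_max_left _ _).trans hr)).2 ε hε

end Pool.Agent.Results.MP_39b545_nt.RegularExactChains
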